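import Pool.Agent.W363.JQ.Stm

set_option autoImplicit false
open Filter Topology Set Metric

namespace Pool.Agent.W346.JQ
open Pool.Agent.W363.JQ

/-- escape radius -/
theorem big (f : Polynomial ℂ) (hf : 2 ≤ f.natDegree) :
    ∃ R : ℝ, 0 < R ∧ ∀ z : ℂ, R ≤ ‖z‖ → 2 * ‖z‖ ≤ ‖f.eval z‖ := by
  have hd : 0 < f.divX.degree := by
    apply Polynomial.natDegree_pos_iff_degree_pos.1
    rw [Polynomial.natDegree_divX_eq_natDegree_tsub_one]
    omega
  have ht : Tendsto (fun z : ℂ => ‖f.divX.eval z‖) (comap norm atTop) atTop :=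
    f.divX.tendsto_norm_atTop hd tendsto_comap
  have h3 := ht.eventually_ge_atTop 3
  rw [Filter.eventually_comap] at h3
  obtain ⟨R₀, hR₀⟩ := eventually_atTop.1 h3
  refine ⟨max (max R₀ 1) ‖f.coeff 0‖, lt_of_lt_of_le one_pos ((le_max_right _ _).trans
    (le_max_left _ _)), fun z hz => ?_⟩
  have h4 : 3 ≤ ‖f.divX.eval z‖ :=
    hR₀ ‖z‖ ((le_max_left _ _).trans ((le_max_left _ _).trans hz)) z rfl
  have h5 : ‖f.coeff 0‖ ≤ ‖z‖ := (le_max_right _ _).trans hz
  have h6 : f.eval z = z * f.divX.eval z + f.coeff 0 := by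
    have h7 := congrArg (Polynomial.eval z) (Polynomial.X_mul_divX_add f)
    rw [Polynomial.eval_add, Polynomial.eval_mul, Polynomial.eval_X, Polynomial.eval_C] at h7
    exact h7.symm
  rw [h6]
  have h7 : ‖z * f.divX.eval z‖ ≤ ‖z * f.divX.eval z + f.coeff 0‖ + ‖f.coeff 0‖ := by
    have := norm_sub_le (z * f.divX.eval z + f.coeff 0) (f.coeff 0)
    simpa using this
  rw [norm_mul] at h7
  nlinarith [norm_nonneg z]

theorem it_zero (f : Polynomial ℂ) (z : ℂ) : it f 0 z = z := rfl

theorem it_succ (f : Polynomial ℂ) (n : ℕ) (z : ℂ) : it f (n + 1) z = f.eval (it f n z) := by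
  simp only [it, Function.iterate_succ_apply']

theorem it_succ' (f : Polynomial ℂ) (n : ℕ) (z : ℂ) : it f (n + 1) z = it f n (f.eval z) := by
  simp only [it, Function.iterate_succ_apply]

theorem it_add (f : Polynomial ℂ) (m n : ℕ) (z : ℂ) : it f (m + n) z = it f m (it f n z) := by
  simp only [it, Function.iterate_add_apply]

theorem it_cont (f : Polynomial ℂ) (n : ℕ) : Continuous (it f n) :=
  f.continuous.iterate n

theorem it_diff (f : Polynomial ℂ) (n : ℕ) : Differentiable ℂ (it f n) :=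
  f.differentiable.iterate n

/-- growth outside of the disc of radius `R` -/
theorem grow (f : Polynomial ℂ) (R : ℝ) (hR0 : 0 < R)
    (hR : ∀ z : ℂ, R ≤ ‖z‖ → 2 * ‖z‖ ≤ ‖f.eval z‖) (z : ℂ) (hz : R ≤ ‖z‖) (n : ℕ) :
    2 ^ n * ‖z‖ ≤ ‖it f n z‖ := by
  induction n with
  | zero => simp [it]
  | succ n ih =>
    rw [it_succ]
    have h1 : R ≤ ‖it f n z‖ := by
      refine hz.trans (le_trans ?_ ih)
      have : (1 : ℝ) ≤ 2 ^ n := one_le_pow₀ (by norm_num)
      nlinarith [norm_nonneg z]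
    have h2 := hR _ h1
    rw [pow_succ]
    nlinarith

theorem mem_KK_def (f : Polynomial ℂ) (z : ℂ) :
    z ∈ KK f ↔ Bornology.IsBounded (Set.range (fun n : ℕ => it f n z)) := Iff.rfl

theorem mem_KK (f : Polynomial ℂ) (R : ℝ) (hR0 : 0 < R)
    (hR : ∀ z : ℂ, R ≤ ‖z‖ → 2 * ‖z‖ ≤ ‖f.eval z‖) (z : ℂ) :
    z ∈ KK f ↔ ∀ n, ‖it f n z‖ ≤ R := by
  constructor
  · intro hz n
    by_contra hc
    push Not at hc
    obtain ⟨M, hM⟩ := ((mem_KK_def f z).1 hz).exists_norm_le
    obtain ⟨k, hk⟩ := pow_unbounded_of_one_lt (M / R) (one_lt_two : (1 : ℝ) < 2)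
    have h1 := grow f R hR0 hR (it f n z) hc.le k
    rw [← it_add] at h1
    have h2 : ‖it f (k + n) z‖ ≤ M := hM _ ⟨k + n, rfl⟩
    rw [div_lt_iff₀ hR0] at hk
    have h3 : (2 : ℝ) ^ k * R ≤ 2 ^ k * ‖it f n z‖ := by gcongr
    linarith
  · intro h
    refine (mem_KK_def f z).2 (isBounded_iff_forall_norm_le.2 ⟨R, ?_⟩)
    rintro _ ⟨n, rfl⟩
    exact h n

theorem esc_aux (f : Polynomial ℂ) (R : ℝ) (hR0 : 0 < R)
    (hR : ∀ z : ℂ, R ≤ ‖z‖ → 2 * ‖z‖ ≤ ‖f.eval z‖) (z : ℂ) (hz : z ∉ KK f) :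
    Tendsto (fun n : ℕ => ‖it f n z‖) atTop atTop := by
  rw [mem_KK f R hR0 hR z] at hz
  push Not at hz
  obtain ⟨n, hn⟩ := hz
  rw [← tendsto_add_atTop_iff_nat n]
  refine tendsto_atTop_mono (fun k => ?_)
    ((tendsto_pow_atTop_atTop_of_one_lt (one_lt_two : (1 : ℝ) < 2)).atTop_mul_const hR0)
  have h1 := grow f R hR0 hR (it f n z) hn.le k
  rw [← it_add] at h1
  refine le_trans ?_ h1
  gcongr

theorem KK_closed (f : Polynomial ℂ) (hf : 2 ≤ f.natDegree) : IsClosed (KK f) := by
  obtain ⟨R, hR0, hR⟩ := big f hf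
  have : KK f = ⋂ n, {z | ‖it f n z‖ ≤ R} := by
    ext z
    rw [mem_KK f R hR0 hR z]
    simp
  rw [this]
  exact isClosed_iInter fun n => isClosed_le (it_cont f n).norm continuous_const

/-- the complement of a closed ball is connected -/
theorem conn_out (R : ℝ) (hR : 0 < R) : IsPreconnected {z : ℂ | R < ‖z‖} := by
  have h1 : {z : ℂ | R < ‖z‖} = Complex.exp '' {w : ℂ | Real.log R < w.re} := by
    ext z
    simp only [mem_ofPred_eq, mem_image]
    constructor
    · intro hz
      have hz0 : z ≠ 0 := by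
        intro h; rw [h, norm_zero] at hz; linarith
      refine ⟨Complex.log z, ?_, Complex.exp_log hz0⟩
      rw [Complex.log_re]
      exact Real.log_lt_log hR hz
    · rintro ⟨w, hw, rfl⟩
      rw [Complex.norm_exp]
      exact (Real.log_lt_iff_lt_exp hR).1 hw
  rw [h1]
  refine IsPreconnected.image ?_ _ Complex.continuous_exp.continuousOn
  exact (convex_halfSpace_re_gt _).isPreconnected

theorem frontier_comp_subset (K : Set ℂ) (hK : IsClosed K) (z : ℂ) :
    frontier (connectedComponentIn Kᶜ z) ⊆ K := by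
  intro x hx
  by_contra hxK
  have hxK' : x ∈ Kᶜ := hxK
  have hV : IsOpen (connectedComponentIn Kᶜ z) := hK.isOpen_compl.connectedComponentIn
  have hW : IsOpen (connectedComponentIn Kᶜ x) := hK.isOpen_compl.connectedComponentIn
  have hxW : x ∈ connectedComponentIn Kᶜ x := mem_connectedComponentIn hxK'
  have hxc : x ∈ closure (connectedComponentIn Kᶜ z) := frontier_subset_closure hx
  obtain ⟨y, hyW, hyV⟩ := mem_closure_iff.1 hxc _ hW hxW
  have e1 : connectedComponentIn Kᶜ z = connectedComponentIn Kᶜ y := connectedComponentIn_eq hyV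
  have e2 : connectedComponentIn Kᶜ x = connectedComponentIn Kᶜ y := connectedComponentIn_eq hyW
  have hxV : x ∈ connectedComponentIn Kᶜ z := by rw [e1, ← e2]; exact hxW
  rw [hV.frontier_eq] at hx
  exact hx.2 hxV

theorem cconn : S_cconn := by
  intro f hf
  obtain ⟨R, hR0, hR⟩ := big f hf
  have hKc := KK_closed f hf
  have hout : {z : ℂ | R < ‖z‖} ⊆ (KK f)ᶜ := by
    intro z hz hzK
    have := (mem_KK f R hR0 hR z).1 hzK 0
    rw [it_zero] at this
    exact absurd hz (not_lt.2 this)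
  have hw : ((R + 1 : ℝ) : ℂ) ∈ {z : ℂ | R < ‖z‖} := by
    show R < ‖((R + 1 : ℝ) : ℂ)‖
    rw [Complex.norm_real, Real.norm_of_nonneg (by linarith)]
    linarith
  refine ⟨⟨_, hout hw⟩, ?_⟩
  refine isPreconnected_of_forall ((R + 1 : ℝ) : ℂ) ?_
  intro y hy
  have key : ∃ u ∈ connectedComponentIn (KK f)ᶜ y, R < ‖u‖ := by
    by_contra hc
    push Not at hc
    have hb : Bornology.IsBounded (connectedComponentIn (KK f)ᶜ y) :=
      isBounded_iff_forall_norm_le.2 ⟨R, hc⟩
    apply hy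
    rw [mem_KK f R hR0 hR y]
    intro n
    refine Complex.norm_le_of_forall_mem_frontier_norm_le hb (it_diff f n).diffContOnCl ?_
      (subset_closure (mem_connectedComponentIn hy))
    intro z hz
    exact (mem_KK f R hR0 hR z).1 (frontier_comp_subset _ hKc y hz) n
  obtain ⟨u, hu1, hu2⟩ := key
  refine ⟨connectedComponentIn (KK f)ᶜ y ∪ {z : ℂ | R < ‖z‖},
    union_subset (connectedComponentIn_subset _ _) hout, Or.inr hw,
    Or.inl (mem_connectedComponentIn hy), ?_⟩
  exact IsPreconnected.union u hu1 hu2 isPreconnected_connectedComponentIn (conn_out R hR0)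

theorem basic (h : S_cconn) : S_basic := by
  intro f hf
  obtain ⟨R, hR0, hR⟩ := big f hf
  have hKc := KK_closed f hf
  have hK : IsCompact (KK f) := by
    refine isCompact_of_isClosed_isBounded hKc (isBounded_iff_forall_norm_le.2 ⟨R, fun z hz => ?_⟩)
    exact (mem_KK f R hR0 hR z).1 hz 0
  have hinvK : ∀ z, f.eval z ∈ KK f ↔ z ∈ KK f := by
    intro z
    rw [mem_KK f R hR0 hR, mem_KK f R hR0 hR]
    constructor
    · intro hh
      have h1 : f.eval z ∈ KK f := (mem_KK f R hR0 hR _).2 hh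
      have h2 : z ∈ KK f := by
        obtain ⟨M, hM⟩ := ((mem_KK_def f _).1 h1).exists_norm_le
        refine (mem_KK_def f z).2 (isBounded_iff_forall_norm_le.2 ⟨max M ‖z‖, ?_⟩)
        rintro _ ⟨n, rfl⟩
        rcases n with _ | n
        · exact le_max_right _ _
        · refine le_trans ?_ (le_max_left _ _)
          exact hM _ ⟨n, rfl⟩
      exact (mem_KK f R hR0 hR _).1 h2
    · intro hh n
      rw [← it_succ']
      exact hh (n + 1)
  have hq := Polynomial.isOpenQuotientMap_eval f (by omega)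
  have hpre : (fun z => f.eval z) ⁻¹' (KK f) = KK f := by
    ext z; exact hinvK z
  have hfr : (fun z => f.eval z) ⁻¹' (JJ f) = JJ f := by
    unfold JJ
    rw [hq.isOpenMap.preimage_frontier_eq_frontier_preimage hq.continuous, hpre]
  have hne : (KK f).Nonempty := by
    have hdeg : (f - Polynomial.X).natDegree = f.natDegree := by
      apply Polynomial.natDegree_sub_eq_left_of_natDegree_lt
      rw [Polynomial.natDegree_X]; omega
    have hd0 : (f - Polynomial.X).degree ≠ 0 := by
      intro h0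
      have h1 : (f - Polynomial.X).natDegree = 0 := Polynomial.natDegree_eq_of_degree_eq_some h0
      omega
    obtain ⟨z, hz⟩ := IsAlgClosed.exists_root _ hd0
    have hz' : f.eval z = z := by
      have : (f - Polynomial.X).eval z = 0 := hz
      rw [Polynomial.eval_sub, Polynomial.eval_X] at this
      exact sub_eq_zero.1 this
    refine ⟨z, ?_⟩
    have hfix : ∀ n, it f n z = z := by
      intro n
      induction n with
      | zero => rfl
      | succ n ih => rw [it_succ, ih, hz']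
    refine (mem_KK_def f z).2 (isBounded_iff_forall_norm_le.2 ⟨‖z‖, ?_⟩)
    rintro _ ⟨n, rfl⟩
    exact (congrArg norm (hfix n)).le
  refine ⟨hf, hK, ?_, ?_, ?_, hinvK, ?_, ?_, ⟨R, hR0, hR⟩, h f hf, ?_⟩
  · refine nonempty_frontier_iff.2 ⟨hne, fun hu => ?_⟩
    have := (h f hf).nonempty
    rw [hu, compl_univ] at this
    exact Set.not_nonempty_empty this
  · exact hK.of_isClosed_subset isClosed_frontier hKc.frontier_subset
  · exact hKc.frontier_subset
  · intro z
    exact Set.ext_iff.1 hfr z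
  · exact esc_aux f R hR0 hR
  · exact interior_frontier hKc

end Pool.Agent.W346.JQ
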