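import Pool.Agent.W346.JQ.Basic

set_option autoImplicit false
open Filter Topology Set Metric

namespace Pool.Agent.W346.JQ
open Pool.Agent.W363.JQ

/-- the polynomial whose values are those of the `n`-th iterate -/
noncomputable def Fn (f : Polynomial ℂ) (n : ℕ) : Polynomial ℂ := f.comp^[n] Polynomial.X

theorem Fn_eval (f : Polynomial ℂ) (n : ℕ) (z : ℂ) : (Fn f n).eval z = it f n z := by
  rw [Fn, Polynomial.iterate_comp_eval, Polynomial.eval_X]

theorem Fn_deg (f : Polynomial ℂ) (n : ℕ) : (Fn f n).natDegree = f.natDegree ^ n := by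
  rw [Fn, Polynomial.natDegree_iterate_comp, Polynomial.natDegree_X, mul_one]

theorem Fn_crit (f : Polynomial ℂ) (n : ℕ) (c : ℂ) (hc : (Fn f n).derivative.eval c = 0) :
    ∃ i < n, f.derivative.eval (it f i c) = 0 := by
  induction n with
  | zero => simp [Fn] at hc
  | succ n ih =>
    have h1 : Fn f (n + 1) = f.comp (Fn f n) := by
      rw [Fn, Function.iterate_succ_apply']; rfl
    rw [h1, Polynomial.derivative_comp, Polynomial.eval_mul, Polynomial.eval_comp, Fn_eval,
      mul_eq_zero] at hc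
    rcases hc with hc | hc
    · obtain ⟨i, hi, hi2⟩ := ih hc
      exact ⟨i, by omega, hi2⟩
    · exact ⟨n, by omega, hc⟩

theorem it_Fn (f : Polynomial ℂ) (n m : ℕ) (z : ℂ) : it (Fn f n) m z = it f (n * m) z := by
  induction m with
  | zero => rfl
  | succ m ih =>
    rw [it_succ, ih, Fn_eval, ← it_add, Nat.mul_succ, Nat.add_comm]

theorem KK_Fn (f : Polynomial ℂ) (hf : 2 ≤ f.natDegree) (n : ℕ) (hn : 1 ≤ n) :
    KK (Fn f n) = KK f := by
  ext z
  constructor
  · intro hz
    by_contra hz2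
    obtain ⟨R, hR0, hR⟩ := big f hf
    have h1 := esc_aux f R hR0 hR z hz2
    obtain ⟨M, hM⟩ := ((mem_KK_def _ z).1 hz).exists_norm_le
    have h2 : Tendsto (fun m : ℕ => ‖it f (n * m) z‖) atTop atTop :=
      h1.comp (tendsto_id.const_mul_atTop' (by omega))
    obtain ⟨m, hm⟩ := (h2.eventually_gt_atTop M).exists
    have h3 : ‖it (Fn f n) m z‖ ≤ M := hM _ ⟨m, rfl⟩
    rw [it_Fn] at h3
    linarith
  · intro hz
    refine (mem_KK_def _ z).2 (((mem_KK_def f z).1 hz).subset ?_)
    rintro _ ⟨m, rfl⟩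
    exact ⟨n * m, (it_Fn f n m z).symm⟩

theorem it_JJ (f : Polynomial ℂ) (hb : Bas f) (z : ℂ) (hz : z ∈ JJ f) (n : ℕ) :
    it f n z ∈ JJ f := by
  induction n with
  | zero => exact hz
  | succ n ih => rw [it_succ]; exact (hb.invJ _).2 ih

theorem mem_PC (f : Polynomial ℂ) (c : ℂ) (hc : f.derivative.eval c = 0) (n : ℕ) :
    it f n c ∈ PC f := by
  refine subset_closure ?_
  rw [mem_iUnion₂]
  exact ⟨c, hc, ⟨n, rfl⟩⟩

theorem hypiter (hb : S_basic) : S_hypiter := by
  intro f hf n hn
  have hbf := hb f hf.deg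
  have hKK := KK_Fn f hf.deg n hn
  have hJJ : JJ (Fn f n) = JJ f := by unfold JJ; rw [hKK]
  have hdeg : 2 ≤ (Fn f n).natDegree := by
    rw [Fn_deg]
    calc 2 ≤ f.natDegree := hf.deg
      _ = f.natDegree ^ 1 := (pow_one _).symm
      _ ≤ f.natDegree ^ n := Nat.pow_le_pow_right (by have := hf.deg; omega) hn
  refine ⟨Fn f n, Fn_eval f n, Fn_deg f n, hKK, hdeg, ?_, by rw [hJJ]; exact hf.conn⟩
  rw [hJJ]
  have hd0 : (Fn f n).derivative ≠ 0 := by
    intro h0
    have := Polynomial.derivative_eq_zero.1 h0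
    omega
  have hfin : {c : ℂ | (Fn f n).derivative.eval c = 0}.Finite := by
    have := (Fn f n).derivative.roots.toFinset.finite_toSet
    refine this.subset fun c hc => ?_
    simp only [Finset.mem_coe, Multiset.mem_toFinset, Polynomial.mem_roots hd0]
    exact hc
  have hsub : PC (Fn f n) ⊆ {c : ℂ | (Fn f n).derivative.eval c = 0} ∪ PC f := by
    refine closure_minimal ?_ (hfin.isClosed.union isClosed_closure)
    intro z hz
    rw [mem_iUnion₂] at hz
    obtain ⟨c, hc, m, rfl⟩ := hz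
    have hc' : (Fn f n).derivative.eval c = 0 := hc
    rcases m with _ | m
    · exact Or.inl hc'
    · right
      obtain ⟨i, hi, hi2⟩ := Fn_crit f n c hc'
      have h1 : it (Fn f n) (m + 1) c = it f (n * (m + 1) - i) (it f i c) := by
        rw [it_Fn, ← it_add]
        congr 1
        have : i ≤ n * (m + 1) := by nlinarith
        omega
      have h2 : it (Fn f n) (m + 1) c ∈ PC f := by
        rw [h1]; exact mem_PC f _ hi2 _
      exact h2
  refine Set.disjoint_left.2 fun z hz hzJ => ?_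
  rcases hsub hz with hz | hz
  · have hc' : (Fn f n).derivative.eval z = 0 := hz
    obtain ⟨i, hi, hi2⟩ := Fn_crit f n z hc'
    exact Set.disjoint_left.1 hf.disj (mem_PC f _ hi2 0) (it_JJ f hbf z hzJ i)
  · exact Set.disjoint_left.1 hf.disj hz hzJ

end Pool.Agent.W346.JQ
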