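import Pool.Agent.W363.JQ.Stm

set_option autoImplicit false
open Filter Topology Set Metric

namespace Pool.Agent.W346.JQ
open Pool.Agent.W363.JQ

/-- one short piece of a path -/
theorem shr_piece (f : Polynomial ℂ) (r : ℝ) (n : ℕ) (hEx : ExN f r n)
    (huniq : ∀ (S : Set ℝ)
      (γ γ' : ℝ → ℂ), IsPreconnected S → ContinuousOn γ S → ContinuousOn γ' S →
      (∀ t ∈ S, it f n (γ t) = it f n (γ' t)) →
      (∀ t ∈ S, ∃ x ∈ JJ f, dist (it f n (γ t)) x < r) →
      ∀ t₀ ∈ S, γ t₀ = γ' t₀ → ∀ t ∈ S, γ t = γ' t)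
    (s t : ℝ) (hst : s ≤ t) (γ : ℝ → ℂ) (hγ : ContinuousOn γ (Icc s t))
    (hnear : ∀ u ∈ Icc s t, ∃ x ∈ JJ f, dist (it f n (γ u)) x < r / 2)
    (hosc : ∀ u ∈ Icc s t, dist (it f n (γ s)) (it f n (γ u)) < r / 2) :
    dist (γ s) (γ t) ≤ r / 2 / 2 ^ n := by
  have hcont : Continuous (it f n) := f.continuous.iterate n
  have hs : s ∈ Icc s t := left_mem_Icc.2 hst
  have ht : t ∈ Icc s t := right_mem_Icc.2 hst
  obtain ⟨x, hx, hxs⟩ := hnear s hs
  have hr : 0 < r := hEx.1
  have hball : ∀ u ∈ Icc s t, it f n (γ u) ∈ ball x r := by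
    intro u hu
    rw [mem_ball]
    calc dist (it f n (γ u)) x ≤ dist (it f n (γ u)) (it f n (γ s)) + dist (it f n (γ s)) x :=
          dist_triangle _ _ _
      _ < r / 2 + r / 2 := by
          have := hosc u hu
          rw [dist_comm] at this
          linarith
      _ = r := by ring
  obtain ⟨g, hg1, hg2, _, hg4, hg5⟩ := hEx.2 x hx (it f n (γ s)) (hball s hs) (γ s) rfl
  have hγc : ContinuousOn (fun u => it f n (γ u)) (Icc s t) := hcont.comp_continuousOn hγ
  have hγ' : ContinuousOn (fun u => g (it f n (γ u))) (Icc s t) :=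
    hg1.continuousOn.comp hγc fun u hu => hball u hu
  have heq := huniq (Icc s t) γ (fun u => g (it f n (γ u))) isPreconnected_Icc hγ hγ'
    (fun u hu => (hg4 _ (hball u hu)).symm)
    (fun u hu => ⟨x, hx, mem_ball.1 (hball u hu)⟩) s hs hg2.symm
  rw [heq s hs, heq t ht]
  refine (hg5 _ (hball s hs) _ (hball t ht)).trans ?_
  have := hosc t ht
  gcongr

theorem shr (h1 : S_exn) (h2 : S_uniq) : S_shr := by
  intro f r hB hEx n a b ω γ hab hω hγ hnear hosc
  have hExn := h1 f r hB hEx n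
  have hu := h2 f r hB hEx n
  have hr : 0 < r := hEx.1
  -- the subdivision points
  let T : ℕ → ℝ := fun k => min (a + k * ω) b
  have hTa : ∀ k, a ≤ T k := fun k => le_min (by have : 0 ≤ (k : ℝ) * ω := by positivity
                                                 linarith) hab
  have hTb : ∀ k, T k ≤ b := fun k => min_le_right _ _
  have hTm : ∀ k, T k ≤ T (k + 1) := by
    intro k
    refine min_le_min ?_ le_rfl
    push_cast
    nlinarith
  have hTd : ∀ k, T (k + 1) ≤ T k + ω := by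
    intro k
    rcases le_total (a + k * ω) b with h | h
    · have e1 : T k = a + k * ω := min_eq_left h
      rw [e1]
      refine (min_le_left _ _).trans ?_
      push_cast
      linarith
    · have e1 : T k = b := min_eq_right h
      rw [e1]
      have := hTb (k + 1)
      linarith
  have hstep : ∀ k, dist (γ (T k)) (γ (T (k + 1))) ≤ r / 2 / 2 ^ n := by
    intro k
    have hsub : Icc (T k) (T (k + 1)) ⊆ Icc a b := Icc_subset_Icc (hTa k) (hTb (k + 1))
    refine shr_piece f r n hExn hu (T k) (T (k + 1)) (hTm k) γ (hγ.mono hsub)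
      (fun u hu => hnear u (hsub hu)) ?_
    intro u hu'
    refine hosc (T k) ⟨hTa k, hTb k⟩ u (hsub hu') ?_
    rw [abs_le]
    have := hTd k
    constructor <;> linarith [hu'.1, hu'.2]
  have hsum : ∀ k : ℕ, dist (γ a) (γ (T k)) ≤ k * (r / 2 / 2 ^ n) := by
    intro k
    induction k with
    | zero =>
      have e0 : T 0 = a := by
        show min (a + ((0 : ℕ) : ℝ) * ω) b = a
        rw [Nat.cast_zero, zero_mul, add_zero]
        exact min_eq_left hab
      rw [e0, dist_self]; simp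
    | succ k ih =>
      calc dist (γ a) (γ (T (k + 1))) ≤ dist (γ a) (γ (T k)) + dist (γ (T k)) (γ (T (k + 1))) :=
            dist_triangle _ _ _
        _ ≤ k * (r / 2 / 2 ^ n) + r / 2 / 2 ^ n := add_le_add ih (hstep k)
        _ = ((k + 1 : ℕ) : ℝ) * (r / 2 / 2 ^ n) := by push_cast; ring
  obtain ⟨N, hN1, hN2⟩ : ∃ N : ℕ, (b - a) / ω ≤ N ∧ (N : ℝ) ≤ (b - a) / ω + 1 := by
    refine ⟨⌈(b - a) / ω⌉₊, Nat.le_ceil _, ?_⟩
    exact (Nat.ceil_lt_add_one (div_nonneg (by linarith) hω.le)).le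
  have hTN : T N = b := by
    refine min_eq_right ?_
    rw [div_le_iff₀ hω] at hN1
    linarith
  have h3 := hsum N
  rw [hTN] at h3
  refine h3.trans ?_
  have h4 : r / 2 / 2 ^ n ≤ r / 2 ^ n := by
    gcongr
    linarith
  calc (N : ℝ) * (r / 2 / 2 ^ n) ≤ ((b - a) / ω + 1) * (r / 2 ^ n) := by
        have h5 : 0 ≤ (b - a) / ω := div_nonneg (by linarith) hω.le
        gcongr
    _ = ((b - a) / ω + 1) * r / 2 ^ n := by ring

end Pool.Agent.W346.JQ
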